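import Pool.Agent.Lib.MP_1c3690_al.Core

set_option autoImplicit false

namespace Pool.Agent.SmallVar

open scoped commutatorElement

/-- the commutative group structure on a subgroup whose elements commute -/
@[reducible] def cg {G : Type} [Group G] (A : Subgroup G)
    (h : ∀ a ∈ A, ∀ b ∈ A, a * b = b * a) : CommGroup A :=
  { (inferInstance : Group A) with
    mul_comm := fun a b => Subtype.ext (h a a.2 b b.2) }

/-- chains of normal subgroups inside a normal subgroup of the commutator subgroup which the
commutator subgroup centralises -/
theorem chain_in_commutator {S : Set (FreeGroup ℕ)} (hS : Small S) {G : Type} [Group G]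
    (hG : Group.FG G) (hV : InVar S G) (A : Subgroup G) (hAn : A.Normal)
    (hAD : A ≤ commutator G) (hDA : ∀ d ∈ commutator G, ∀ a ∈ A, d * a = a * d)
    (N : ℕ → Subgroup G) (hN : ∀ n, (N n).Normal) (hmono : Monotone N)
    (hle : ∀ n, N n ≤ A) : ∃ n, ∀ m, n ≤ m → N m = N n := by
  have hcomm : ∀ a ∈ A, ∀ b ∈ A, a * b = b * a := fun a ha b hb => hDA a (hAD ha) b hb
  let _ : CommGroup A := cg A hcomm
  let cj : G → A → A := fun g a => ⟨g * a * g⁻¹, hAn.conj_mem a a.2 g⟩
  let ρ₀ : G →* Module.End ℤ (Additive A) :=
    { toFun := fun g =>
        { toFun := fun a => Additive.ofMul (cj g a.toMul)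
          map_add' := by
            intro a b
            apply Additive.toMul.injective
            apply Subtype.ext
            show g * ((a.toMul : G) * (b.toMul : G)) * g⁻¹ =
              (g * (a.toMul : G) * g⁻¹) * (g * (b.toMul : G) * g⁻¹)
            group
          map_smul' := by
            intro k a
            apply Additive.toMul.injective
            apply Subtype.ext
            show g * ((a.toMul : G) ^ k) * g⁻¹ = (g * (a.toMul : G) * g⁻¹) ^ k
            rw [conj_zpow] }
      map_one' := by
        ext a
        show (1 : G) * (a.toMul : G) * (1 : G)⁻¹ = (a.toMul : G)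
        group
      map_mul' := by
        intro g h
        ext a
        show (g * h) * (a.toMul : G) * (g * h)⁻¹ = g * (h * (a.toMul : G) * h⁻¹) * g⁻¹
        group }
  have hρ₀ : ∀ g a, ρ₀ g a = Additive.ofMul (cj g a.toMul) := fun g a => rfl
  have hker : commutator G ≤ ρ₀.ker := by
    intro d hd
    rw [MonoidHom.mem_ker]
    apply LinearMap.ext
    intro a
    rw [hρ₀]
    apply Additive.toMul.injective
    apply Subtype.ext
    show d * (a.toMul : G) * d⁻¹ = (a.toMul : G)
    rw [hDA d hd _ a.toMul.2]
    group
  let ρ : Representation ℤ (Abelianization G) (Additive A) :=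
    QuotientGroup.lift (commutator G) ρ₀ hker
  have hρ : ∀ (g : G) (a : Additive A), ρ (Abelianization.of g) a =
      Additive.ofMul (cj g a.toMul) := fun g a => rfl
  have hfg : Group.FG (Abelianization G) := by
    have := hG
    exact Group.fg_of_surjective (f := (Abelianization.of : G →* Abelianization G))
      (QuotientGroup.mk'_surjective _)
  have hfm : Monoid.FG (Abelianization G) := Group.fg_iff_monoid_fg.1 hfg
  have hft : Algebra.FiniteType ℤ (MonoidAlgebra ℤ (Abelianization G)) := inferInstance
  have hnr : IsNoetherianRing (MonoidAlgebra ℤ (Abelianization G)) :=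
    Algebra.FiniteType.isNoetherianRing ℤ _
  refine chain_abs hS hG hV A hAn hAD hDA (R := MonoidAlgebra ℤ (Abelianization G))
    (M := ρ.asModule) (fun a => ρ.asModuleEquiv.symm (Additive.ofMul a)) ?_ ?_
    (fun g => MonoidAlgebra.of ℤ _ (Abelianization.of g)) ?_ ?_ N hN hmono hle
  · exact ρ.asModuleEquiv.symm.bijective.comp Additive.ofMul.bijective
  · intro a b
    rw [ofMul_mul, map_add]
  · intro g a b hb
    rw [← Representation.asModuleEquiv_symm_map_rho, hρ]
    have : b = cj g a := Subtype.ext hb
    rw [this]
    rfl
  · intro P hP r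
    induction r using MonoidAlgebra.induction_on with
    | of g =>
      intro x hx
      obtain ⟨g, rfl⟩ := QuotientGroup.mk_surjective g
      exact hP g x hx
    | add r s hr hs =>
      intro x hx
      rw [add_smul]
      exact add_mem (hr x hx) (hs x hx)
    | smul k r hr =>
      intro x hx
      have h1 : (k • r) • x = k • (r • x) := by
        rw [smul_assoc]
      rw [h1]
      exact zsmul_mem (hr x hx) k

end Pool.Agent.SmallVar
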