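import Mathlib

set_option autoImplicit false

namespace Pool.Agent.SmallVar

open Cardinal

/-- the group satisfies the laws in `S` -/
def InVar (S : Set (FreeGroup ℕ)) (G : Type) [Group G] : Prop :=
  ∀ w ∈ S, ∀ f : ℕ → G, FreeGroup.lift f w = 1

/-- there is no family, indexed by the sets of natural numbers, of pairwise non-isomorphic
finitely generated groups which satisfy the laws in `S` -/
def Small (S : Set (FreeGroup ℕ)) : Prop :=
  ¬ ∃ (G : Set ℕ → Type) (_ : ∀ s, Group (G s)),
    (∀ s, Group.FG (G s)) ∧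
    (∀ s, ∀ w ∈ S, ∀ f : ℕ → G s, FreeGroup.lift f w = 1) ∧
    (∀ s t, Nonempty (G s ≃* G t) → s = t)

section
variable {S : Set (FreeGroup ℕ)} {G H : Type} [Group G] [Group H]

lemma map_lift (φ : G →* H) (f : ℕ → G) (w : FreeGroup ℕ) :
    φ (FreeGroup.lift f w) = FreeGroup.lift (fun n => φ (f n)) w := by
  have : φ.comp (FreeGroup.lift f) = FreeGroup.lift (fun n => φ (f n)) := by
    apply FreeGroup.ext_hom
    intro a
    simp
  rw [← this]
  rfl

lemma InVar.of_injective (h : InVar S H) (φ : G →* H) (hφ : Function.Injective φ) :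
    InVar S G := by
  intro w hw f
  apply hφ
  rw [map_lift, map_one]
  exact h w hw _

lemma InVar.of_surjective (h : InVar S G) (φ : G →* H) (hφ : Function.Surjective φ) :
    InVar S H := by
  intro w hw f
  choose g hg using fun n => hφ (f n)
  have : f = fun n => φ (g n) := funext fun n => (hg n).symm
  rw [this, ← map_lift, h w hw, map_one]

lemma InVar.subgroup (h : InVar S G) (K : Subgroup G) : InVar S K :=
  h.of_injective K.subtype K.subtype_injective

lemma InVar.quotient (h : InVar S G) (K : Subgroup G) [K.Normal] : InVar S (G ⧸ K) :=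
  h.of_surjective (QuotientGroup.mk' K) (QuotientGroup.mk'_surjective K)

lemma InVar.prod (h : InVar S G) (h' : InVar S H) : InVar S (G × H) := by
  intro w hw f
  apply Prod.ext
  · show MonoidHom.fst G H (FreeGroup.lift f w) = 1
    rw [map_lift]
    exact h w hw _
  · show MonoidHom.snd G H (FreeGroup.lift f w) = 1
    rw [map_lift]
    exact h' w hw _

lemma countable_of_fg (hG : Group.FG G) : Countable G := by
  obtain ⟨s, hs⟩ := Group.fg_def.1 hG
  have h1 : Countable (Subgroup.closure (s : Set G)) := by
    have : Countable (FreeGroup s) := inferInstance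
    have hr : (FreeGroup.lift ((↑) : s → G)).range = Subgroup.closure (s : Set G) := by
      have := FreeGroup.closure_eq_range (s : Set G)
      exact this.symm
    rw [← hr]
    exact (MonoidHom.rangeRestrict_surjective _).countable
  rw [hs] at h1
  exact Subgroup.topEquiv.symm.injective.countable

lemma countable_hom (hG : Group.FG G) (hH : Countable H) : Countable (G →* H) := by
  obtain ⟨s, hs⟩ := Group.fg_def.1 hG
  have h1 : Countable (s → H) := inferInstance
  refine Function.Injective.countable (f := fun (φ : G →* H) (x : s) => φ x) ?_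
  intro φ ψ h
  apply MonoidHom.eq_of_eqOn_dense hs
  intro x hx
  exact congrFun h ⟨x, hx⟩

end

/-- in a small variety, a finitely generated group has fewer than continuum many normal
subgroups -/
theorem Small.few_normal {S : Set (FreeGroup ℕ)} (hS : Small S) {G : Type} [Group G]
    (hG : Group.FG G) (hV : InVar S G) (f : Set ℕ → Subgroup G) (hn : ∀ s, (f s).Normal)
    (hf : Function.Injective f) : False := by
  let r : Setoid (Set ℕ) :=
    { r := fun s t => Nonempty ((G ⧸ f s) ≃* (G ⧸ f t))
      iseqv :=
        { refl := fun s => ⟨MulEquiv.refl _⟩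
          symm := fun ⟨e⟩ => ⟨e.symm⟩
          trans := fun ⟨e⟩ ⟨e'⟩ => ⟨e.trans e'⟩ } }
  have hcl : ∀ x : Quotient r, Countable {t : Set ℕ // (⟦t⟧ : Quotient r) = x} := by
    intro x
    obtain ⟨s, rfl⟩ := Quotient.exists_rep x
    have hiso : ∀ t : {t : Set ℕ // (⟦t⟧ : Quotient r) = ⟦s⟧},
        Nonempty ((G ⧸ f t.1) ≃* (G ⧸ f s)) := fun t => Quotient.exact t.2
    choose e he using fun t => (⟨(hiso t).some, trivial⟩ :
      ∃ _ : (G ⧸ f t.1) ≃* (G ⧸ f s), True)
    have hcG : Countable G := countable_of_fg hG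
    have hc : Countable (G →* (G ⧸ f s)) :=
      countable_hom hG (Function.Surjective.countable (QuotientGroup.mk'_surjective (f s)))
    refine Function.Injective.countable
      (f := fun t => ((e t).toMonoidHom.comp (QuotientGroup.mk' (f t.1)))) ?_
    intro t u htu
    have hk : ∀ t, ((e t).toMonoidHom.comp (QuotientGroup.mk' (f t.1))).ker = f t.1 := by
      intro t
      ext x
      rw [MonoidHom.mem_ker]
      show e t (x : G ⧸ f t.1) = 1 ↔ _
      rw [EmbeddingLike.map_eq_one_iff, QuotientGroup.eq_one_iff]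
    apply Subtype.ext
    apply hf
    rw [← hk t, ← hk u]
    exact congrArg MonoidHom.ker htu
  have hcard : #(Set ℕ) ≤ #(Quotient r) := by
    by_contra hlt
    push Not at hlt
    have h1 : #(Set ℕ) = #(Σ x : Quotient r, {t : Set ℕ // (⟦t⟧ : Quotient r) = x}) :=
      Cardinal.mk_congr (Equiv.sigmaFiberEquiv _).symm
    have h2 : #(Σ x : Quotient r, {t : Set ℕ // (⟦t⟧ : Quotient r) = x}) ≤
        #(Quotient r) * ℵ₀ := by
      rw [Cardinal.mk_sigma]
      calc _ ≤ Cardinal.sum (fun _ : Quotient r => ℵ₀) :=
            Cardinal.sum_le_sum _ _ fun x => Cardinal.mk_le_aleph0_iff.2 (hcl x)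
        _ = _ := by rw [Cardinal.sum_const']
    have h3 : ℵ₀ < #(Set ℕ) := by
      rw [Cardinal.mk_set]
      exact Cardinal.mk_nat ▸ Cardinal.cantor _
    have h4 : #(Quotient r) * ℵ₀ < #(Set ℕ) := Cardinal.mul_lt_of_lt h3.le hlt h3
    rw [h1] at h4
    exact absurd h2 (not_le.2 (h1 ▸ h4))
  obtain ⟨j⟩ := hcard
  apply hS
  refine ⟨fun s => G ⧸ f (j s).out, fun s => inferInstance, fun s => ?_, fun s => ?_, ?_⟩
  · exact inferInstance
  · exact hV.quotient _
  · intro s t hst
    apply j.injective
    have h1 : (⟦(j s).out⟧ : Quotient r) = ⟦(j t).out⟧ := Quotient.sound hst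
    rwa [Quotient.out_eq, Quotient.out_eq] at h1

end Pool.Agent.SmallVar
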