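import Pool.Agent.Lib.MP_1c3690_al.Mod
import Pool.Agent.Lib.MP_1c3690_al.Var

set_option autoImplicit false

namespace Pool.Agent.SmallVar

open scoped commutatorElement

/-- the fibre square of a group over its abelianization -/
def fib (G : Type) [Group G] : Subgroup (G × G) :=
  MonoidHom.eqLocus (Abelianization.of.comp (MonoidHom.fst G G))
    (Abelianization.of.comp (MonoidHom.snd G G))

lemma mem_fib {G : Type} [Group G] {p : G × G} : p ∈ fib G ↔ p.1⁻¹ * p.2 ∈ commutator G := by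
  show Abelianization.of p.1 = Abelianization.of p.2 ↔ _
  exact QuotientGroup.eq

lemma commutator_le_of_gen {G : Type} [Group G] (s : Set G) (hs : Subgroup.closure s = ⊤)
    (D : Subgroup G) [D.Normal] (hD : ∀ x ∈ s, ∀ y ∈ s, ⁅x, y⁆ ∈ D) : commutator G ≤ D := by
  have key : ∀ x y : G, ⁅x, y⁆ ∈ D ↔ Commute (x : G ⧸ D) (y : G ⧸ D) := by
    intro x y
    rw [← QuotientGroup.eq_one_iff, ← commutatorElement_eq_one_iff_commute]
    rfl
  have h1 : ∀ x ∈ s, ∀ y : G, Commute (x : G ⧸ D) (y : G ⧸ D) := by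
    intro x hx y
    have : (⊤ : Subgroup G) ≤ (Subgroup.centralizer {(x : G ⧸ D)}).comap
        (QuotientGroup.mk' D) := by
      rw [← hs, Subgroup.closure_le]
      intro y hy
      show (y : G ⧸ D) ∈ Subgroup.centralizer {(x : G ⧸ D)}
      rw [Subgroup.mem_centralizer_singleton_iff]
      exact ((key x y).1 (hD x hx y hy)).symm
    have h2 : (y : G ⧸ D) ∈ Subgroup.centralizer {(x : G ⧸ D)} := this (Subgroup.mem_top y)
    rw [Subgroup.mem_centralizer_singleton_iff] at h2
    exact Commute.symm h2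
  have h2 : ∀ x y : G, Commute (x : G ⧸ D) (y : G ⧸ D) := by
    intro x y
    have : (⊤ : Subgroup G) ≤ (Subgroup.centralizer {(y : G ⧸ D)}).comap
        (QuotientGroup.mk' D) := by
      rw [← hs, Subgroup.closure_le]
      intro x hx
      show (x : G ⧸ D) ∈ Subgroup.centralizer {(y : G ⧸ D)}
      rw [Subgroup.mem_centralizer_singleton_iff]
      exact h1 x hx y
    have h2 : (x : G ⧸ D) ∈ Subgroup.centralizer {(y : G ⧸ D)} := this (Subgroup.mem_top x)
    rw [Subgroup.mem_centralizer_singleton_iff] at h2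
    exact h2
  rw [commutator_def, Subgroup.commutator_le]
  intro x _ y _
  exact (key x y).2 (h2 x y)

lemma fib_fg {G : Type} [Group G] (hG : Group.FG G) : Group.FG (fib G) := by
  classical
  obtain ⟨s, hs⟩ := Group.fg_def.1 hG
  rw [Group.fg_iff_subgroup_fg, Subgroup.fg_iff]
  refine ⟨(fun t => (t, t)) '' (s : Set G) ∪ (fun p : G × G => ((1 : G), ⁅p.1, p.2⁆)) ''
    ((s : Set G) ×ˢ (s : Set G)), ?_, ?_⟩
  · set T : Set (G × G) := (fun t => (t, t)) '' (s : Set G) ∪
      (fun p : G × G => ((1 : G), ⁅p.1, p.2⁆)) '' ((s : Set G) ×ˢ (s : Set G)) with hT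
    apply le_antisymm
    · rw [Subgroup.closure_le]
      rintro p (⟨t, -, rfl⟩ | ⟨p, -, rfl⟩)
      · show _ ∈ fib G
        rw [mem_fib]
        show t⁻¹ * t ∈ _
        rw [inv_mul_cancel]
        exact one_mem _
      · show _ ∈ fib G
        rw [mem_fib]
        show (1 : G)⁻¹ * ⁅p.1, p.2⁆ ∈ _
        rw [inv_one, one_mul, commutator_def]
        exact Subgroup.commutator_mem_commutator (Subgroup.mem_top _) (Subgroup.mem_top _)
    · have hdiag : ∀ g : G, (g, g) ∈ Subgroup.closure T := by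
        intro g
        have : (⊤ : Subgroup G) ≤ (Subgroup.closure T).comap
            ((MonoidHom.id G).prod (MonoidHom.id G)) := by
          rw [← hs, Subgroup.closure_le]
          intro x hx
          exact Subgroup.subset_closure (Or.inl ⟨x, hx, rfl⟩)
        exact this (Subgroup.mem_top g)
      let D : Subgroup G := (Subgroup.closure T).comap (MonoidHom.inr G G)
      have hDm : ∀ d : G, d ∈ D ↔ ((1 : G), d) ∈ Subgroup.closure T := fun d => Iff.rfl
      have hDn : D.Normal := by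
        refine ⟨fun d hd g => ?_⟩
        rw [hDm] at hd ⊢
        have := mul_mem (mul_mem (hdiag g) hd) (inv_mem (hdiag g))
        have h2 : ((1 : G), g * d * g⁻¹) = (g, g) * (1, d) * (g, g)⁻¹ := by
          ext
          · simp
          · simp
        rw [h2]
        exact this
      have hle : commutator G ≤ D := by
        apply commutator_le_of_gen (s : Set G) hs D
        intro x hx y hy
        rw [hDm]
        exact Subgroup.subset_closure (Or.inr ⟨(x, y), ⟨hx, hy⟩, rfl⟩)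
      intro p hp
      rw [mem_fib] at hp
      have h1 := (hDm _).1 (hle hp)
      have h2 : p = (p.1, p.1) * (1, p.1⁻¹ * p.2) := by
        ext
        · simp
        · simp
      rw [h2]
      exact mul_mem (hdiag _) h1
  · exact (s.finite_toSet.image _).union ((s.finite_toSet.prod s.finite_toSet).image _)

/-- the module argument, abstract form -/
theorem chain_abs {S : Set (FreeGroup ℕ)} (hS : Small S) {G : Type} [Group G]
    (hG : Group.FG G) (hV : InVar S G) (A : Subgroup G) (hAn : A.Normal)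
    (hAD : A ≤ commutator G) (hDA : ∀ d ∈ commutator G, ∀ a ∈ A, d * a = a * d)
    {R : Type} [CommRing R] [IsNoetherianRing R] {M : Type} [AddCommGroup M] [Module R M]
    (e : A → M) (he : Function.Bijective e) (hmul : ∀ a b, e (a * b) = e a + e b)
    (u : G → R) (hu : ∀ (g : G) (a b : A), (b : G) = g * a * g⁻¹ → e b = u g • e a)
    (hR : ∀ P : AddSubgroup M, (∀ g, ∀ x ∈ P, u g • x ∈ P) → ∀ (r : R), ∀ x ∈ P, r • x ∈ P)
    (N : ℕ → Subgroup G) (hN : ∀ n, (N n).Normal) (hmono : Monotone N)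
    (hle : ∀ n, N n ≤ A) : ∃ n, ∀ m, n ≤ m → N m = N n := by
  have he1 : e 1 = 0 := by
    have := hmul 1 1
    rw [mul_one] at this
    exact left_eq_add.1 this
  have heinv : ∀ a, e a⁻¹ = - e a := by
    intro a
    have := hmul a a⁻¹
    rw [mul_inv_cancel, he1] at this
    exact (neg_eq_of_add_eq_zero_right this.symm).symm
  have few : Few2 R M := by
    rintro ⟨f, hf⟩
    let F : Set ℕ → Subgroup (fib G) := fun s =>
      { carrier := {p | ∃ a b : A, (a : G) = p.1.1 ∧ (b : G) = p.1.2 ∧ (e a, e b) ∈ f s}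
        one_mem' := ⟨1, 1, rfl, rfl, by rw [he1]; exact zero_mem _⟩
        mul_mem' := by
          rintro p q ⟨a, b, h1, h2, h3⟩ ⟨a', b', h1', h2', h3'⟩
          refine ⟨a * a', b * b', ?_, ?_, ?_⟩
          · show (a : G) * a' = p.1.1 * q.1.1
            rw [h1, h1']
          · show (b : G) * b' = p.1.2 * q.1.2
            rw [h2, h2']
          · rw [hmul, hmul]
            exact add_mem h3 h3'
        inv_mem' := by
          rintro p ⟨a, b, h1, h2, h3⟩
          refine ⟨a⁻¹, b⁻¹, ?_, ?_, ?_⟩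
          · show (a : G)⁻¹ = (p.1.1)⁻¹
            rw [h1]
          · show (b : G)⁻¹ = (p.1.2)⁻¹
            rw [h2]
          · rw [heinv, heinv]
            exact neg_mem h3 }
    have hF : ∀ s p, p ∈ F s ↔
        ∃ a b : A, (a : G) = p.1.1 ∧ (b : G) = p.1.2 ∧ (e a, e b) ∈ f s := fun s p => Iff.rfl
    refine hS.few_normal (fib_fg hG) ((hV.prod hV).subgroup _) F ?_ ?_
    · intro s
      refine ⟨fun p hp g => ?_⟩
      rw [hF] at hp ⊢
      obtain ⟨a, b, h1, h2, h3⟩ := hp
      obtain ⟨⟨g1, g2⟩, hg⟩ := g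
      rw [mem_fib] at hg
      have hg' : g1⁻¹ * g2 ∈ commutator G := hg
      have hb : g2 * b * g2⁻¹ = g1 * b * g1⁻¹ := by
        have h4 := hDA _ hg' b b.2
        calc g2 * b * g2⁻¹ = g1 * ((g1⁻¹ * g2) * b) * g2⁻¹ := by group
          _ = g1 * (b * (g1⁻¹ * g2)) * g2⁻¹ := by rw [h4]
          _ = g1 * b * g1⁻¹ := by group
      refine ⟨⟨g1 * a * g1⁻¹, hAn.conj_mem a a.2 g1⟩, ⟨g1 * b * g1⁻¹, hAn.conj_mem b b.2 g1⟩,
        ?_, ?_, ?_⟩
      · show g1 * (a : G) * g1⁻¹ = g1 * p.1.1 * g1⁻¹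
        rw [h1]
      · show g1 * (b : G) * g1⁻¹ = g2 * p.1.2 * g2⁻¹
        rw [← h2, hb]
      · have e1 := hu g1 a ⟨g1 * a * g1⁻¹, hAn.conj_mem a a.2 g1⟩ rfl
        have e2 := hu g1 b ⟨g1 * b * g1⁻¹, hAn.conj_mem b b.2 g1⟩ rfl
        rw [e1, e2]
        exact (f s).smul_mem (u g1) h3
    · intro s t hst
      have key : ∀ s t, F s = F t → f s ≤ f t := by
        rintro s t hst ⟨x, y⟩ hxy
        obtain ⟨a, rfl⟩ := he.2 x
        obtain ⟨b, rfl⟩ := he.2 y
        have hab : ((a : G), (b : G)) ∈ fib G := by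
          rw [mem_fib]
          exact hAD (mul_mem (inv_mem a.2) b.2)
        have h1 : (⟨((a : G), (b : G)), hab⟩ : fib G) ∈ F s := (hF _ _).2 ⟨a, b, rfl, rfl, hxy⟩
        rw [hst, hF] at h1
        obtain ⟨a', b', h2, h3, h4⟩ := h1
        have h5 : a' = a := Subtype.ext h2
        have h6 : b' = b := Subtype.ext h3
        rwa [h5, h6] at h4
      exact hf (le_antisymm (key _ _ hst) (key _ _ hst.symm))
  have hnoe : IsNoetherian R M := isNoetherian_of_few2 few
  let Q : ℕ → AddSubgroup M := fun n =>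
    { carrier := {x | ∃ a : A, (a : G) ∈ N n ∧ e a = x}
      zero_mem' := ⟨1, one_mem _, he1⟩
      add_mem' := by
        rintro _ _ ⟨a, ha, rfl⟩ ⟨b, hb, rfl⟩
        exact ⟨a * b, mul_mem ha hb, hmul a b⟩
      neg_mem' := by
        rintro _ ⟨a, ha, rfl⟩
        exact ⟨a⁻¹, inv_mem ha, heinv a⟩ }
  have hQ : ∀ n x, x ∈ Q n ↔ ∃ a : A, (a : G) ∈ N n ∧ e a = x := fun n x => Iff.rfl
  let P : ℕ → Submodule R M := fun n =>
    { carrier := Q n
      zero_mem' := zero_mem _
      add_mem' := fun h1 h2 => add_mem h1 h2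
      smul_mem' := by
        intro r x hx
        refine hR (Q n) ?_ r x hx
        intro g x hx
        rw [hQ] at hx ⊢
        obtain ⟨a, ha, rfl⟩ := hx
        exact ⟨⟨g * a * g⁻¹, hAn.conj_mem a a.2 g⟩, (hN n).conj_mem a ha g, hu g a _ rfl⟩ }
  have hP : ∀ n x, x ∈ P n ↔ ∃ a : A, (a : G) ∈ N n ∧ e a = x := fun n x => Iff.rfl
  have hPm : Monotone P := by
    intro i j hij x hx
    rw [hP] at hx ⊢
    obtain ⟨a, ha, rfl⟩ := hx
    exact ⟨a, hmono hij ha, rfl⟩
  obtain ⟨n, hn⟩ := monotone_stabilizes_iff_noetherian.2 hnoe ⟨P, hPm⟩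
  refine ⟨n, fun m hm => le_antisymm ?_ (hmono hm)⟩
  intro x hx
  have h1 : P n = P m := hn m hm
  have h2 : e ⟨x, hle m hx⟩ ∈ P m := (hP _ _).2 ⟨_, hx, rfl⟩
  rw [← h1, hP] at h2
  obtain ⟨a, ha, hae⟩ := h2
  have h3 := he.1 hae
  rw [h3] at ha
  exact ha

end Pool.Agent.SmallVar
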