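import Pool.Agent.Lib.MP_1c3690_al.Chain

set_option autoImplicit false

namespace Pool.Agent.SmallVar

open scoped commutatorElement

/-- the maximal condition on normal subgroups -/
def MaxN (G : Type) [Group G] : Prop :=
  ∀ N : ℕ → Subgroup G, (∀ n, (N n).Normal) → Monotone N → ∃ n, ∀ m, n ≤ m → N m = N n

lemma eq_of_modular {G : Type} [Group G] (N M K : Subgroup G) (hN : N.Normal) (h : N ≤ M)
    (h1 : M ⊓ K ≤ N) (h2 : M ≤ N ⊔ K) : M = N := by
  refine le_antisymm (fun x hx => ?_) h
  obtain ⟨y, hy, z, hz, rfl⟩ := Subgroup.mem_sup_of_normal_left.1 (h2 hx)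
  refine mul_mem hy (h1 ⟨?_, hz⟩)
  have := mul_mem (inv_mem (h hy)) hx
  rwa [inv_mul_cancel_left] at this

lemma MaxN.of_surjective {G H : Type} [Group G] [Group H] (h : MaxN G) (φ : G →* H)
    (hφ : Function.Surjective φ) : MaxN H := by
  intro N hN hmono
  obtain ⟨n, hn⟩ := h (fun n => (N n).comap φ) (fun n => (hN n).comap φ)
    (fun i j hij => Subgroup.comap_mono (hmono hij))
  exact ⟨n, fun m hm => Subgroup.comap_injective hφ (hn m hm)⟩

lemma chain_over_commutator {G : Type} [Group G] (hG : Group.FG G) (L : ℕ → Subgroup G)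
    (hmono : Monotone L) (hL : ∀ n, commutator G ≤ L n) : ∃ n, ∀ m, n ≤ m → L m = L n := by
  have hfg : Group.FG (Abelianization G) := by
    have := hG
    exact Group.fg_of_surjective (f := (Abelianization.of : G →* Abelianization G))
      (QuotientGroup.mk'_surjective _)
  have hfin : Module.Finite ℤ (Additive (Abelianization G)) := by
    rw [Module.Finite.iff_addGroup_fg]
    exact GroupFG.iff_add_fg.1 hfg
  have hno : IsNoetherian ℤ (Additive (Abelianization G)) := inferInstance
  let P : ℕ →o Submodule ℤ (Additive (Abelianization G)) :=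
    { toFun := fun n => AddSubgroup.toIntSubmodule
        (Subgroup.toAddSubgroup ((L n).map (Abelianization.of : G →* Abelianization G)))
      monotone' := fun i j hij => by
        apply AddSubgroup.toIntSubmodule.monotone
        apply Subgroup.toAddSubgroup.monotone
        exact Subgroup.map_mono (hmono hij) }
  obtain ⟨n, hn⟩ := monotone_stabilizes_iff_noetherian.2 hno P
  refine ⟨n, fun m hm => ?_⟩
  have h1 := hn m hm
  have h2 : (L n).map (Abelianization.of : G →* Abelianization G) =
      (L m).map (Abelianization.of : G →* Abelianization G) :=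
    Subgroup.toAddSubgroup.injective (AddSubgroup.toIntSubmodule.injective h1)
  have hk : (Abelianization.of : G →* Abelianization G).ker = commutator G := by
    exact QuotientGroup.ker_mk' _
  exact Subgroup.map_injective_of_ker_le _ (hk.trans_le (hL m)) (hk.trans_le (hL n)) h2.symm

lemma chain_over_finite {G : Type} [Group G] (K : Subgroup G) (hK : K.FiniteIndex)
    (L : ℕ → Subgroup G) (hmono : Monotone L) (hL : ∀ n, K ≤ L n) :
    ∃ n, ∀ m, n ≤ m → L m = L n := by
  have hfi : ∀ n, (L n).FiniteIndex := fun n => Subgroup.finiteIndex_of_le (hL n)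
  obtain ⟨n, hn⟩ : ∃ n, ∀ m, (L n).index ≤ (L m).index := by
    have hne : (Set.range fun n => (L n).index).Nonempty := ⟨_, 0, rfl⟩
    obtain ⟨n, hn⟩ := Nat.sInf_mem hne
    have hn' : (L n).index = sInf (Set.range fun n => (L n).index) := hn
    exact ⟨n, fun m => by rw [hn']; exact Nat.sInf_le ⟨m, rfl⟩⟩
  refine ⟨n, fun m hm => le_antisymm ?_ (hmono hm)⟩
  have h1 := Subgroup.relIndex_mul_index (hmono hm)
  have h2 := hn m
  have h3 : (L m).index ≠ 0 := (hfi m).index_ne_zero
  have h4 : (L n).index ≠ 0 := (hfi n).index_ne_zero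
  rw [← Subgroup.relIndex_eq_one]
  have h5 : (L n).relIndex (L m) ≠ 0 := by
    intro h0
    rw [h0, zero_mul] at h1
    exact h4 h1.symm
  by_contra h6
  have h7 : 2 ≤ (L n).relIndex (L m) := by omega
  have h8 : 2 * (L m).index ≤ (L n).index := by
    rw [← h1]
    exact Nat.mul_le_mul_right _ h7
  omega

/-- chains of normal subgroups which centralise the commutator subgroup -/
theorem chain_centralising {S : Set (FreeGroup ℕ)} (hS : Small S) {G : Type} [Group G]
    (hG : Group.FG G) (hV : InVar S G) (N : ℕ → Subgroup G) (hN : ∀ n, (N n).Normal)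
    (hmono : Monotone N) (hc : ∀ n, ∀ d ∈ commutator G, ∀ x ∈ N n, d * x = x * d) :
    ∃ n, ∀ m, n ≤ m → N m = N n := by
  have hAn : (commutator G ⊓ Subgroup.centralizer (commutator G : Set G)).Normal :=
    inferInstance
  obtain ⟨n1, h1⟩ := chain_in_commutator hS hG hV
    (commutator G ⊓ Subgroup.centralizer (commutator G : Set G)) hAn inf_le_left
    (fun d hd a ha => (Subgroup.mem_centralizer_iff.1 ha.2 d hd))
    (fun n => N n ⊓ commutator G)
    (fun n => by have := hN n; infer_instance)
    (fun i j hij => inf_le_inf_right _ (hmono hij))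
    (fun n x hx => ⟨hx.2, Subgroup.mem_centralizer_iff.2 fun d hd => hc n d hd x hx.1⟩)
  obtain ⟨n2, h2⟩ := chain_over_commutator hG (fun n => N n ⊔ commutator G)
    (fun i j hij => sup_le_sup_right (hmono hij) _) (fun n => le_sup_right)
  refine ⟨max n1 n2, fun m hm => ?_⟩
  have h3 : n1 ≤ m := (le_max_left _ _).trans hm
  have h4 : n2 ≤ m := (le_max_right _ _).trans hm
  refine eq_of_modular _ _ (commutator G) (hN _) (hmono hm) ?_ ?_
  · have h5 : N m ⊓ commutator G = N (max n1 n2) ⊓ commutator G :=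
      (h1 m h3).trans (h1 _ (le_max_left _ _)).symm
    rw [h5]
    exact inf_le_left
  · have h6 : N m ⊔ commutator G = N (max n1 n2) ⊔ commutator G :=
      (h2 m h4).trans (h2 _ (le_max_right _ _)).symm
    rw [← h6]
    exact le_sup_left

/-- chains of normal subgroups centralised by the commutator subgroup of a subgroup of finite
index -/
theorem chain_virtual {S : Set (FreeGroup ℕ)} (hS : Small S) {G : Type} [Group G]
    (hG : Group.FG G) (hV : InVar S G) (K : Subgroup G) (hK : K.FiniteIndex)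
    (N : ℕ → Subgroup G) (hN : ∀ n, (N n).Normal) (hmono : Monotone N)
    (hc : ∀ n, ∀ a ∈ K, ∀ b ∈ K, ∀ x ∈ N n, ⁅⁅a, b⁆, x⁆ = 1) :
    ∃ n, ∀ m, n ≤ m → N m = N n := by
  have hKfg : Group.FG K := by
    have := hG
    have := hK
    infer_instance
  obtain ⟨n1, h1⟩ := chain_centralising hS hKfg (hV.subgroup K) (fun n => (N n).subgroupOf K)
    (fun n => by have := hN n; infer_instance)
    (fun i j hij x hx => hmono hij hx) (by
      intro n d hd x hx
      have hle : commutator K ≤ Subgroup.centralizer ((N n).subgroupOf K : Set K) := by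
        rw [commutator_def, Subgroup.commutator_le]
        rintro a - b -
        rw [Subgroup.mem_centralizer_iff]
        intro y hy
        have h2 := hc n a a.2 b b.2 y hy
        rw [commutatorElement_eq_one_iff_mul_comm] at h2
        exact Subtype.ext h2.symm
      exact (Subgroup.mem_centralizer_iff.1 (hle hd) x hx).symm)
  obtain ⟨n2, h2⟩ := chain_over_finite K hK (fun n => N n ⊔ K)
    (fun i j hij => sup_le_sup_right (hmono hij) _) (fun n => le_sup_right)
  refine ⟨max n1 n2, fun m hm => ?_⟩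
  have h3 : n1 ≤ m := (le_max_left _ _).trans hm
  have h4 : n2 ≤ m := (le_max_right _ _).trans hm
  refine eq_of_modular _ _ K (hN _) (hmono hm) ?_ ?_
  · have h5 : (N m).subgroupOf K = (N (max n1 n2)).subgroupOf K :=
      (h1 m h3).trans (h1 _ (le_max_left _ _)).symm
    rw [Subgroup.subgroupOf_inj] at h5
    rw [h5]
    exact inf_le_left
  · have h6 : N m ⊔ K = N (max n1 n2) ⊔ K :=
      (h2 m h4).trans (h2 _ (le_max_right _ _)).symm
    rw [← h6]
    exact le_sup_left

/-- the chain condition for one layer, relative form -/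
theorem chain_layer {S : Set (FreeGroup ℕ)} (hS : Small S) {G : Type} [Group G]
    (hG : Group.FG G) (hV : InVar S G) (A B : Subgroup G) [A.Normal]
    (K : Subgroup G) (hK : K.FiniteIndex)
    (hc : ∀ a ∈ K, ∀ b ∈ K, ∀ x ∈ B, ⁅⁅a, b⁆, x⁆ ∈ A)
    (L : ℕ → Subgroup G) (hL : ∀ n, (L n).Normal) (hmono : Monotone L) (hle : ∀ n, L n ≤ B) :
    ∃ n, ∀ m, n ≤ m → L m ⊔ A = L n ⊔ A := by
  have hfg : Group.FG (G ⧸ A) := by
    have := hG
    infer_instance
  have hKA : (K.map (QuotientGroup.mk' A)).FiniteIndex := by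
    refine ⟨fun h0 => hK.index_ne_zero ?_⟩
    have := Subgroup.index_map_dvd K (f := QuotientGroup.mk' A) (QuotientGroup.mk'_surjective A)
    rw [h0] at this
    exact Nat.eq_zero_of_zero_dvd this
  obtain ⟨n, hn⟩ := chain_virtual hS hfg (hV.quotient A) (K.map (QuotientGroup.mk' A)) hKA
    (fun n => (L n ⊔ A).map (QuotientGroup.mk' A))
    (fun n => by
      have := hL n
      exact Subgroup.Normal.map inferInstance _ (QuotientGroup.mk'_surjective A))
    (fun i j hij => Subgroup.map_mono (sup_le_sup_right (hmono hij) _)) (by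
      rintro n _ ⟨a, ha, rfl⟩ _ ⟨b, hb, rfl⟩ _ ⟨x, hx, rfl⟩
      rw [← map_commutatorElement, ← map_commutatorElement]
      refine (QuotientGroup.eq_one_iff _).2 ?_
      obtain ⟨y, hy, z, hz, rfl⟩ := Subgroup.mem_sup_of_normal_right.1 hx
      have h1 := hc a ha b hb y (hle n hy)
      have h2 : ⁅⁅a, b⁆, y * z⁆ = ⁅⁅a, b⁆, y⁆ * (y * ⁅⁅a, b⁆, z⁆ * y⁻¹) := by
        simp only [commutatorElement_def]
        group
      rw [h2]
      refine mul_mem h1 ((inferInstance : A.Normal).conj_mem _ ?_ y)
      have h3 : ⁅⁅a, b⁆, z⁆ = (⁅a, b⁆ * z * ⁅a, b⁆⁻¹) * z⁻¹ := rfl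
      rw [h3]
      exact mul_mem ((inferInstance : A.Normal).conj_mem z hz _) (inv_mem hz))
  exact ⟨n, fun m hm => Subgroup.map_injective_of_ker_le (QuotientGroup.mk' A)
      ((QuotientGroup.ker_mk' A).trans_le le_sup_right)
      ((QuotientGroup.ker_mk' A).trans_le le_sup_right) (hn m hm)⟩

/-- the chain condition for several layers -/
theorem chain_layers {S : Set (FreeGroup ℕ)} (hS : Small S) {G : Type} [Group G]
    (hG : Group.FG G) (hV : InVar S G) (N : ℕ → Subgroup G) (hN : ∀ i, (N i).Normal)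
    (h0 : N 0 = ⊥) (k : ℕ)
    (hstep : ∀ i < k, ∃ K : Subgroup G, K.FiniteIndex ∧
      ∀ a ∈ K, ∀ b ∈ K, ∀ x ∈ N (i + 1), ⁅⁅a, b⁆, x⁆ ∈ N i)
    (L : ℕ → Subgroup G) (hL : ∀ n, (L n).Normal) (hmono : Monotone L)
    (hle : ∀ n, L n ≤ N k) : ∃ n, ∀ m, n ≤ m → L m = L n := by
  induction k generalizing L with
  | zero =>
    have h1 : ∀ n, L n = ⊥ := fun n => le_bot_iff.1 (h0 ▸ hle n)
    exact ⟨0, fun m _ => by rw [h1, h1]⟩
  | succ k ih =>
    obtain ⟨K, hK, hc⟩ := hstep k (Nat.lt_succ_self k)
    have := hN k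
    obtain ⟨n1, h1⟩ := ih (fun i hi => hstep i (hi.trans (Nat.lt_succ_self k)))
      (fun n => L n ⊓ N k) (fun n => by have := hL n; infer_instance)
      (fun i j hij => inf_le_inf_right _ (hmono hij)) (fun n => inf_le_right)
    obtain ⟨n2, h2⟩ := chain_layer hS hG hV (N k) (N (k + 1)) K hK hc L hL hmono hle
    refine ⟨max n1 n2, fun m hm => ?_⟩
    have h3 : n1 ≤ m := (le_max_left _ _).trans hm
    have h4 : n2 ≤ m := (le_max_right _ _).trans hm
    refine eq_of_modular _ _ (N k) (hL _) (hmono hm) ?_ ?_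
    · have h5 : L m ⊓ N k = L (max n1 n2) ⊓ N k :=
        (h1 m h3).trans (h1 _ (le_max_left _ _)).symm
      rw [h5]
      exact inf_le_left
    · have h6 : L m ⊔ N k = L (max n1 n2) ⊔ N k :=
        (h2 m h4).trans (h2 _ (le_max_right _ _)).symm
      rw [← h6]
      exact le_sup_left

end Pool.Agent.SmallVar
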