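import Mathlib

set_option autoImplicit false

namespace Pool.Agent.SmallVar

open Submodule Filter

/-- fewer than continuum many submodules -/
def Few (R M : Type*) [CommRing R] [AddCommGroup M] [Module R M] : Prop :=
  ¬ ∃ f : Set ℕ → Submodule R M, Function.Injective f

/-- the square of the module has fewer than continuum many submodules -/
def Few2 (R M : Type*) [CommRing R] [AddCommGroup M] [Module R M] : Prop := Few R (M × M)

section
variable {R : Type*} [CommRing R] {M N : Type*} [AddCommGroup M] [Module R M] [AddCommGroup N]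
  [Module R N]

lemma Few.of_injective (h : Few R N) (f : M →ₗ[R] N) (hf : Function.Injective f) : Few R M := by
  rintro ⟨g, hg⟩
  exact h ⟨fun s => (g s).map f, fun s t hst => hg (Submodule.map_injective_of_injective hf hst)⟩

lemma Few.of_surjective (h : Few R M) (f : M →ₗ[R] N) (hf : Function.Surjective f) : Few R N := by
  rintro ⟨g, hg⟩
  exact h ⟨fun s => (g s).comap f,
    fun s t hst => hg (Submodule.comap_injective_of_surjective hf hst)⟩

lemma Few2.few (h : Few2 R M) : Few R M :=
  Few.of_injective h (LinearMap.inl R M M) LinearMap.inl_injective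

lemma Few2.of_injective (h : Few2 R N) (f : M →ₗ[R] N) (hf : Function.Injective f) : Few2 R M :=
  Few.of_injective h (f.prodMap f) (hf.prodMap hf)

lemma Few2.of_surjective (h : Few2 R M) (f : M →ₗ[R] N) (hf : Function.Surjective f) :
    Few2 R N :=
  Few.of_surjective h (f.prodMap f) (hf.prodMap hf)

/-- no infinite direct sum -/
lemma Few.not_indep (h : Few R M) (x : ℕ → M) (hx : ∀ n, x n ≠ 0)
    (hd : ∀ n, Disjoint (span R (x '' {i | i < n})) (span R {x n})) : False := by
  have ind : iSupIndep (fun i => span R {x i}) := by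
    rw [iSupIndep_iff_finsetSum_eq_zero_imp_eq_zero]
    intro s
    induction s using Finset.induction_on_max with
    | empty => intro v hv _ i hi; simp at hi
    | insert a s ha ih =>
      intro v hv hsum
      have has : a ∉ s := fun h' => lt_irrefl a (ha a h')
      rw [Finset.sum_insert has] at hsum
      have h1 : v a ∈ span R (x '' {i | i < a}) := by
        have : v a = -∑ i ∈ s, v i := eq_neg_of_add_eq_zero_left hsum
        rw [this]
        refine neg_mem (sum_mem fun i hi => ?_)
        have hsub : ({x i} : Set M) ⊆ x '' {i | i < a} :=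
          Set.singleton_subset_iff.2 ⟨i, ha i hi, rfl⟩
        exact span_mono hsub (hv i (Finset.mem_insert_of_mem hi))
      have h2 : v a = 0 :=
        (Submodule.disjoint_def.1 (hd a)) _ h1 (hv a (Finset.mem_insert_self a s))
      rw [h2, zero_add] at hsum
      intro i hi
      rcases Finset.mem_insert.1 hi with rfl | hi
      · exact h2
      · exact ih v (fun j hj => hv j (Finset.mem_insert_of_mem hj)) hsum i hi
  refine h ⟨fun S => ⨆ i ∈ S, span R {x i}, fun S T hST => ?_⟩
  have key : ∀ S T : Set ℕ, (⨆ i ∈ S, span R {x i}) = (⨆ i ∈ T, span R {x i}) → S ⊆ T := by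
    intro S T hST i hi
    by_contra hiT
    have h1 : Disjoint (span R {x i}) (⨆ j ∈ T, span R {x j}) := ind.disjoint_biSup hiT
    have h2 : span R {x i} ≤ ⨆ j ∈ T, span R {x j} := by
      rw [← hST]; exact le_iSup₂_of_le i hi le_rfl
    have h3 : span R {x i} = ⊥ := disjoint_self.1 (h1.mono_right h2)
    exact hx i (Submodule.span_singleton_eq_bot.1 h3)
  exact Set.Subset.antisymm (key _ _ hST) (key _ _ hST.symm)

/-- partial sums of a power series with coefficients 0, 1 -/
noncomputable def ps (r : R) (S : Set ℕ) (m : ℕ) : R := by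
  classical exact ∑ i ∈ Finset.range m, if i ∈ S then r ^ i else 0

lemma ps_smul_eq (r : R) (S : Set ℕ) {k m : ℕ} (hkm : k ≤ m) {y : M} (hy : r ^ k • y = 0) :
    ps r S m • y = ps r S k • y := by
  classical
  induction m, hkm using Nat.le_induction with
  | base => rfl
  | succ m hm ih =>
    have : ps r S (m + 1) = ps r S m + if m ∈ S then r ^ m else 0 := by
      simp only [ps, Finset.sum_range_succ]
    rw [this, add_smul, ih]
    have h0 : (if m ∈ S then r ^ m else 0) • y = 0 := by
      split_ifs
      · obtain ⟨c, rfl⟩ := Nat.exists_eq_add_of_le hm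
        rw [add_comm, pow_add, mul_smul, hy, smul_zero]
      · exact zero_smul _ _
    rw [h0, add_zero]

/-- the graph of the power series -/
def graph (M : Type*) [AddCommGroup M] [Module R M] (r : R) (S : Set ℕ) :
    Submodule R (M × M) where
  carrier := {p | ∀ᶠ m in atTop, p.2 = ps r S m • p.1}
  zero_mem' := by simp
  add_mem' := by
    intro a b ha hb
    filter_upwards [ha, hb] with m h1 h2
    simp only [Prod.snd_add, Prod.fst_add, h1, h2, smul_add]
  smul_mem' := by
    intro c a ha
    filter_upwards [ha] with m h1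
    simp only [Prod.smul_snd, Prod.smul_fst, h1]
    exact smul_comm _ _ _

lemma Few2.bounded (h : Few2 R M) (r : R) (ht : ∀ x : M, ∃ n, r ^ n • x = 0) :
    ∃ n, ∀ x : M, r ^ n • x = 0 := by
  classical
  by_contra hcon
  push Not at hcon
  have hy : ∀ j : ℕ, ∃ y : M, r ^ j • y ≠ 0 ∧ r ^ (j + 1) • y = 0 := by
    intro j
    obtain ⟨x, hx⟩ := hcon j
    have hn := ht x
    obtain ⟨n, hn1, hn2⟩ : ∃ n, r ^ (n + 1) • x = 0 ∧ r ^ n • x ≠ 0 := by
      have h0 : Nat.find hn ≠ 0 := by
        intro h0
        have := Nat.find_spec hn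
        rw [h0, pow_zero, one_smul] at this
        exact hx (by rw [this, smul_zero])
      obtain ⟨n, hn'⟩ := Nat.exists_eq_succ_of_ne_zero h0
      refine ⟨n, ?_, ?_⟩
      · have := Nat.find_spec hn; rwa [hn'] at this
      · exact Nat.find_min hn (by rw [hn']; exact Nat.lt_succ_self n)
    have hjn : j ≤ n := by
      by_contra hlt
      push Not at hlt
      obtain ⟨c, rfl⟩ := Nat.exists_eq_add_of_lt hlt
      apply hx
      rw [show n + c + 1 = c + (n + 1) by ring, pow_add, mul_smul, hn1, smul_zero]
    obtain ⟨c, rfl⟩ := Nat.exists_eq_add_of_le hjn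
    refine ⟨r ^ c • x, ?_, ?_⟩
    · rwa [← mul_smul, ← pow_add]
    · rwa [← mul_smul, ← pow_add, show j + 1 + c = j + c + 1 by ring]
  refine h ⟨fun S => graph M r S, fun S T hST => ?_⟩
  by_contra hne
  have hex : ∃ j, ¬ (j ∈ S ↔ j ∈ T) := by
    by_contra hh
    push Not at hh
    exact hne (Set.ext hh)
  obtain ⟨j, hj, hmin⟩ : ∃ j, ¬ (j ∈ S ↔ j ∈ T) ∧ ∀ i < j, (i ∈ S ↔ i ∈ T) :=
    ⟨Nat.find hex, Nat.find_spec hex, fun i hi => not_not.1 (Nat.find_min hex hi)⟩
  obtain ⟨y, hy1, hy2⟩ := hy j
  have hmem : ∀ U : Set ℕ, ((y, ps r U (j + 1) • y) : M × M) ∈ graph M r U := by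
    intro U
    show ∀ᶠ m in atTop, ps r U (j + 1) • y = ps r U m • y
    filter_upwards [eventually_ge_atTop (j + 1)] with m hm
    exact (ps_smul_eq r U hm hy2).symm
  have h1 := hmem S
  have hST' : graph M r S = graph M r T := hST
  rw [hST'] at h1
  have h2 : ∀ᶠ m in atTop, ps r S (j + 1) • y = ps r T m • y := h1
  obtain ⟨m, hm1, hm2⟩ := (h2.and (eventually_ge_atTop (j + 1))).exists
  rw [ps_smul_eq r T hm2 hy2] at hm1
  have hps : ∀ U : Set ℕ, ps r U (j + 1) = ps r U j + if j ∈ U then r ^ j else 0 := by
    intro U; simp only [ps, Finset.sum_range_succ]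
  have heq : ps r S j = ps r T j := by
    simp only [ps]
    refine Finset.sum_congr rfl fun i hi => ?_
    rw [Finset.mem_range] at hi
    simp only [hmin i hi]
  rw [hps, hps, heq, add_smul, add_smul] at hm1
  have h3 := add_left_cancel hm1
  by_cases hjS : j ∈ S
  · have hjT : j ∉ T := fun h' => hj ⟨fun _ => h', fun _ => hjS⟩
    rw [if_pos hjS, if_neg hjT, zero_smul] at h3
    exact hy1 h3
  · have hjT : j ∈ T := by
      by_contra h'
      exact hj ⟨fun h'' => absurd h'' hjS, fun h'' => absurd h'' h'⟩
    rw [if_neg hjS, if_pos hjT, zero_smul] at h3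
    exact hy1 h3.symm

/-- a finitely generated essential submodule -/
lemma Few.exists_essential (h : Few R M) : ∃ F : Submodule R M, F.FG ∧
    ∀ y : M, y ≠ 0 → ∃ z ∈ span R {y}, z ∈ F ∧ z ≠ 0 := by
  by_contra hcon
  push Not at hcon
  choose! g hg0 hg using hcon
  let s : ℕ → Submodule R M := fun n => Nat.rec ⊥ (fun _ F => F ⊔ span R {g F}) n
  have hs1 : ∀ n, s (n + 1) = s n ⊔ span R {g (s n)} := fun n => rfl
  have hfg : ∀ n, (s n).FG := by
    intro n
    induction n with
    | zero => exact Submodule.fg_bot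
    | succ n ih => rw [hs1]; exact ih.sup (Submodule.fg_span_singleton _)
  have hle : Monotone s := monotone_nat_of_le_succ fun n => by rw [hs1]; exact le_sup_left
  refine h.not_indep (fun n => g (s n)) (fun n => hg0 _ (hfg n)) (fun n => ?_)
  rw [Submodule.disjoint_def]
  intro z hz1 hz2
  refine hg _ (hfg n) z hz2 ?_
  refine (Submodule.span_le.2 ?_) hz1
  rintro _ ⟨i, hi, rfl⟩
  have h1 : g (s i) ∈ s (i + 1) := by
    rw [hs1]; exact Submodule.mem_sup_right (Submodule.mem_span_singleton_self _)
  exact hle (show i + 1 ≤ n from hi) h1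

end

universe u v

/-- a module over a commutative Noetherian ring whose square has fewer than continuum many
submodules is Noetherian -/
theorem isNoetherian_of_few2 {R : Type v} [CommRing R] [IsNoetherianRing R] {M : Type u}
    [AddCommGroup M] [Module R M] (h : Few2 R M) : IsNoetherian R M := by
  by_contra hM
  let C : Set (Ideal R) := {I | ∃ (E : Type u) (_ : AddCommGroup E) (_ : Module R E),
    Few2 R E ∧ ¬ IsNoetherian R E ∧ Module.annihilator R E = I}
  obtain ⟨P, ⟨E, iE, mE, hE2, hEN, hEP⟩, hmax⟩ :=
    set_has_maximal_iff_noetherian.2 (inferInstance : IsNoetherian R R) C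
      ⟨_, M, inferInstance, inferInstance, h, hM, rfl⟩
  have key : ∀ (E' : Type u) [AddCommGroup E'] [Module R E'], Few2 R E' →
      ¬ IsNoetherian R E' → P ≤ Module.annihilator R E' → Module.annihilator R E' = P := by
    intro E' _ _ h1 h2 h3
    rcases h3.eq_or_lt with h4 | h4
    · exact h4.symm
    · exact absurd h4 (hmax _ ⟨E', inferInstance, inferInstance, h1, h2, rfl⟩)
  have hone : (1 : R) ∉ P := by
    intro h1
    rw [← hEP, Module.mem_annihilator] at h1
    apply hEN
    have : Subsingleton E := ⟨fun a b => by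
      rw [← one_smul R a, ← one_smul R b, h1 a, h1 b]⟩
    infer_instance
  have hprime : ∀ a b : R, a * b ∈ P → a ∈ P ∨ b ∈ P := by
    intro a b hab
    by_contra hcon
    push Not at hcon
    obtain ⟨ha, hb⟩ := hcon
    obtain ⟨L, hL⟩ : ∃ L : Submodule R E, L = LinearMap.range (LinearMap.lsmul R E a) := ⟨_, rfl⟩
    apply hEN
    rw [isNoetherian_iff_submodule_quotient L]
    constructor
    · by_contra hN
      have h1 := key L (hE2.of_injective L.subtype L.injective_subtype) hN (by
        intro r hr
        rw [← hEP, Module.mem_annihilator] at hr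
        rw [Module.mem_annihilator]
        intro x
        exact Subtype.ext (hr x))
      apply hb
      rw [← h1, Module.mem_annihilator]
      rintro ⟨x, hx⟩
      apply Subtype.ext
      rw [hL] at hx
      obtain ⟨y, rfl⟩ := hx
      rw [← hEP, Module.mem_annihilator] at hab
      show b • (a • y) = 0
      rw [← mul_smul, mul_comm, hab]
    · by_contra hN
      have h1 := key (E ⧸ L) (hE2.of_surjective L.mkQ (Submodule.mkQ_surjective L)) hN (by
        intro r hr
        rw [← hEP, Module.mem_annihilator] at hr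
        rw [Module.mem_annihilator]
        intro x
        obtain ⟨y, rfl⟩ := Submodule.mkQ_surjective L x
        rw [← map_smul, hr, map_zero])
      apply ha
      rw [← h1, Module.mem_annihilator]
      intro x
      obtain ⟨y, rfl⟩ := Submodule.mkQ_surjective L x
      rw [← map_smul, Submodule.mkQ_apply, Submodule.Quotient.mk_eq_zero, hL]
      exact ⟨y, rfl⟩
  have hprimep : ∀ (a : R) (n : ℕ), a ^ n ∈ P → a ∈ P := by
    intro a n
    induction n with
    | zero => intro h1; rw [pow_zero] at h1; exact absurd h1 hone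
    | succ n ih =>
      intro h1
      rw [pow_succ] at h1
      rcases hprime _ _ h1 with h2 | h2
      · exact ih h2
      · exact h2
  -- first step: pass to a torsion module
  obtain ⟨F, hF, hess⟩ := hE2.few.exists_essential
  have hFN : IsNoetherian R F := isNoetherian_of_fg_of_noetherian F hF
  have hE1N : ¬ IsNoetherian R (E ⧸ F) := fun h1 =>
    hEN ((isNoetherian_iff_submodule_quotient F).2 ⟨hFN, h1⟩)
  have hE12 : Few2 R (E ⧸ F) := hE2.of_surjective F.mkQ (Submodule.mkQ_surjective F)
  have hE1P : Module.annihilator R (E ⧸ F) = P := key _ hE12 hE1N (by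
    intro r hr
    rw [← hEP, Module.mem_annihilator] at hr
    rw [Module.mem_annihilator]
    intro x
    obtain ⟨y, rfl⟩ := Submodule.mkQ_surjective F x
    rw [← map_smul, hr, map_zero])
  have htor : ∀ x : E ⧸ F, ∃ r, r ∉ P ∧ r • x = 0 := by
    intro x
    obtain ⟨y, rfl⟩ := Submodule.mkQ_surjective F x
    by_contra hcon
    push Not at hcon
    by_cases hy : y = 0
    · exact hcon 1 hone (by rw [hy, map_zero, smul_zero])
    · obtain ⟨z, hz1, hz2, hz3⟩ := hess y hy
      obtain ⟨r, rfl⟩ := Submodule.mem_span_singleton.1 hz1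
      by_cases hr : r ∈ P
      · rw [← hEP, Module.mem_annihilator] at hr
        exact hz3 (hr y)
      · apply hcon r hr
        rw [← map_smul, Submodule.mkQ_apply, Submodule.Quotient.mk_eq_zero]
        exact hz2
  -- second step
  obtain ⟨F', hF', hess'⟩ := hE12.few.exists_essential
  obtain ⟨r, hrP, hrF⟩ : ∃ r, r ∉ P ∧ ∀ x ∈ F', r • x = 0 := by
    obtain ⟨s, rfl⟩ := hF'
    have h1 : ∀ s : Finset (E ⧸ F), ∃ r, r ∉ P ∧ ∀ x ∈ s, r • x = 0 := by
      intro s
      classical
      induction s using Finset.induction_on with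
      | empty => exact ⟨1, hone, by simp⟩
      | insert a s _ ih =>
        obtain ⟨r, hr, hrs⟩ := ih
        obtain ⟨q, hq, hqa⟩ := htor a
        refine ⟨r * q, fun h2 => (hprime _ _ h2).elim hr hq, fun x hx => ?_⟩
        rcases Finset.mem_insert.1 hx with rfl | hx
        · rw [mul_smul, hqa, smul_zero]
        · rw [mul_comm, mul_smul, hrs x hx, smul_zero]
    obtain ⟨r, hr, hrs⟩ := h1 s
    refine ⟨r, hr, fun x hx => ?_⟩
    induction hx using Submodule.span_induction with
    | mem x hx => exact hrs x hx
    | zero => exact smul_zero _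
    | add x y _ _ h1 h2 => rw [smul_add, h1, h2, add_zero]
    | smul a x _ h1 => rw [smul_comm, h1, smul_zero]
  have htor' : ∀ y : E ⧸ F, ∃ n, r ^ n • y = 0 := by
    intro y
    have : IsNoetherian R (span R {y}) :=
      isNoetherian_of_fg_of_noetherian _ (Submodule.fg_span_singleton y)
    obtain ⟨f, hf⟩ : ∃ f : span R {y} →ₗ[R] span R {y}, ∀ x, f x = r • x :=
      ⟨LinearMap.lsmul R _ r, fun x => rfl⟩
    have hfn : ∀ (n : ℕ) x, (f ^ n) x = r ^ n • x := by
      intro n
      induction n with
      | zero => intro x; simp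
      | succ n ih => intro x; rw [pow_succ, Module.End.mul_apply, hf, ih, ← mul_smul, pow_succ]
    obtain ⟨n, hn1, hn2⟩ :=
      ((Module.End.eventually_disjoint_ker_pow_range_pow f).and (eventually_ge_atTop 1)).exists
    refine ⟨n, ?_⟩
    by_contra hy
    obtain ⟨z, hz1, hz2, hz3⟩ := hess' _ hy
    obtain ⟨c, rfl⟩ := Submodule.mem_span_singleton.1 hz1
    have hmem : c • y ∈ span R {y} := Submodule.smul_mem _ _ (Submodule.mem_span_singleton_self y)
    apply hz3
    have h1 : (f ^ n) ⟨c • y, hmem⟩ ∈ LinearMap.ker (f ^ n) := by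
      rw [LinearMap.mem_ker, hfn, hfn]
      apply Subtype.ext
      show r ^ n • (r ^ n • (c • y)) = 0
      rw [smul_comm (r ^ n) c y]
      obtain ⟨k, rfl⟩ := Nat.exists_eq_add_of_le' hn2
      rw [pow_succ r k, mul_smul, ← pow_succ r k, hrF _ hz2, smul_zero]
    have h2 := (Submodule.disjoint_def.1 hn1) _ h1 ⟨_, rfl⟩
    rw [hfn] at h2
    have h3 := congrArg Subtype.val h2
    show c • r ^ n • y = 0
    rw [smul_comm]
    exact h3
  obtain ⟨n, hn⟩ := hE12.bounded r htor'
  apply hrP
  apply hprimep r n
  rw [← hE1P, Module.mem_annihilator]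
  exact hn

end Pool.Agent.SmallVar
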